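import Pool.Agent.H71.ASF.StmtsM

/-!
# Project ASF (MP_8ae111_al), module DES: descent
-/

namespace ASF

universe u

theorem des (h1 : QUOStmt.{u}) (_ : IDWStmt.{u}) (h3 : ISVStmt.{u}) (h4 : IGPStmt.{u}) :
    DESStmt.{u} := by
  intro R _ A _ _ _ _ _ q 𝒜 B K hGP hK H
  obtain ⟨A', i1, i2, i3, i4, i5, π, hmul, hsur, hker⟩ := h1 R A K hK
  obtain ⟨m, hm⟩ := H A' i1 i2 i3 i4 i5 π hmul hsur hker (h4 R A A' π q 𝒜 B hmul hsur hGP)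
  refine ⟨m, fun x hx => ?_⟩
  obtain ⟨e1, -, e3⟩ := h3 R A A' π hmul hsur
  rw [← hker]
  refine e3 (Idl R (B : Set A)) m ?_ x hx
  rw [e1, ← hm]
  rfl

end ASF
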