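import Pool.Agent.H71.ASF.StmtsM

/-!
# Project ASF (MP_8ae111_al), module IDP: products of ideals generated by sets
-/

namespace ASF

universe u

theorem idp (h1 : IDWStmt.{u}) : IDPStmt.{u} := by
  intro R _ A _ _ _ _ S T h x hx y hy
  rw [(h1 R A S).2.2.2] at hx
  rw [(h1 R A T).2.2.2] at hy
  induction hx using Submodule.span_induction with
  | mem x hx =>
    obtain ⟨s, hs, l, rfl⟩ := hx
    induction hy using Submodule.span_induction with
    | mem y hy =>
      obtain ⟨t, ht, m, rfl⟩ := hy
      exact h s hs t ht l m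
    | zero => rw [mul_zero]
    | add y z _ _ hy hz => rw [mul_add, hy, hz, add_zero]
    | smul r y _ hy => rw [mul_smul_comm, hy, smul_zero]
  | zero => rw [zero_mul]
  | add x z _ _ hx hz => rw [add_mul, hx, hz, add_zero]
  | smul r x _ hx => rw [smul_mul_assoc, hx, smul_zero]

end ASF
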