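import Pool.Agent.H71.ASF.StmtsM

/-!
# Project ASF (MP_8ae111_al), module IDW: the ideal generated by a set is spanned by words
-/

namespace ASF

universe u

theorem idw : IDWStmt.{u} := by
  intro R _ A _ _ _ _ S
  have hid : IsIdl (Idl R S) := by
    intro x hx a
    rw [Idl, Submodule.mem_sInf] at hx
    constructor
    · rw [Idl, Submodule.mem_sInf]
      intro I hI
      exact (hI.1 x (hx I hI) a).1
    · rw [Idl, Submodule.mem_sInf]
      intro I hI
      exact (hI.1 x (hx I hI) a).2
  have hS : S ⊆ Idl R S := by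
    intro s hs
    change s ∈ Idl R S
    rw [Idl, Submodule.mem_sInf]
    intro I hI
    exact hI.2 hs
  have hmin : ∀ I : Submodule R A, IsIdl I → S ⊆ I → Idl R S ≤ I :=
    fun I h1 h2 => sInf_le ⟨h1, h2⟩
  refine ⟨hid, hS, hmin, le_antisymm ?_ ?_⟩
  · refine hmin _ ?_ ?_
    · intro x hx a
      induction hx using Submodule.span_induction with
      | mem x hx =>
        obtain ⟨s, hs, l, rfl⟩ := hx
        exact ⟨Submodule.subset_span ⟨s, hs, (true, a) :: l, rfl⟩,
          Submodule.subset_span ⟨s, hs, (false, a) :: l, rfl⟩⟩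
      | zero =>
        rw [mul_zero, zero_mul]
        exact ⟨Submodule.zero_mem _, Submodule.zero_mem _⟩
      | add x y _ _ hx hy =>
        rw [mul_add, add_mul]
        exact ⟨Submodule.add_mem _ hx.1 hy.1, Submodule.add_mem _ hx.2 hy.2⟩
      | smul r x _ hx =>
        rw [mul_smul_comm, smul_mul_assoc]
        exact ⟨Submodule.smul_mem _ _ hx.1, Submodule.smul_mem _ _ hx.2⟩
    · intro s hs
      exact Submodule.subset_span ⟨s, hs, [], rfl⟩
  · rw [Submodule.span_le]
    rintro z ⟨s, hs, l, rfl⟩
    induction l with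
    | nil => exact hS hs
    | cons p l ih =>
      obtain ⟨b, a⟩ := p
      cases b with
      | true => exact (hid _ ih a).1
      | false => exact (hid _ ih a).2

end ASF
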