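import Pool.Agent.H71.ASF.StmtsM

/-!
# Project ASF (MP_8ae111_al), module ISV: solvable extensions
-/

namespace ASF

universe u

theorem isv : ISVStmt.{u} := by
  intro R _ A _ _ _ _ A' _ _ _ _ π hmul hsur
  have hid : ∀ {B : Type u} [NonUnitalNonAssocRing B] [Module R B] (S : Set B),
      IsIdl (Idl R S) ∧ S ⊆ Idl R S ∧ ∀ I : Submodule R B, IsIdl I → S ⊆ I → Idl R S ≤ I := by
    intro B _ _ S
    refine ⟨?_, ?_, fun I h1 h2 => sInf_le ⟨h1, h2⟩⟩
    · intro x hx a
      rw [Idl, Submodule.mem_sInf] at hx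
      constructor
      · rw [Idl, Submodule.mem_sInf]
        intro I hI
        exact (hI.1 x (hx I hI) a).1
      · rw [Idl, Submodule.mem_sInf]
        intro I hI
        exact (hI.1 x (hx I hI) a).2
    · intro s hs
      change s ∈ Idl R S
      rw [Idl, Submodule.mem_sInf]
      intro I hI
      exact hI.2 hs
  have hder : ∀ (I : Submodule R A) (n : ℕ), (der I n).map π = der (I.map π) n := by
    intro I n
    induction n with
    | zero => rfl
    | succ n ih =>
      change (mulS (der I n) (der I n)).map π = mulS (der (I.map π) n) (der (I.map π) n)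
      rw [mulS, mulS, Submodule.map_span, ← ih]
      congr 1
      ext z
      constructor
      · rintro ⟨_, ⟨x, hx, y, hy, rfl⟩, rfl⟩
        exact ⟨π x, Submodule.mem_map_of_mem hx, π y, Submodule.mem_map_of_mem hy, hmul x y⟩
      · rintro ⟨_, ⟨x, hx, rfl⟩, _, ⟨y, hy, rfl⟩, rfl⟩
        exact ⟨x * y, ⟨x, hx, y, hy, rfl⟩, hmul x y⟩
  refine ⟨?_, hder, ?_⟩
  · intro S
    refine le_antisymm ?_ ?_
    · rw [Submodule.map_le_iff_le_comap]
      refine (hid S).2.2 _ ?_ ?_
      · intro x hx a
        rw [Submodule.mem_comap] at hx ⊢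
        rw [Submodule.mem_comap, hmul, hmul]
        exact (hid (π '' S)).1 _ hx (π a)
      · intro s hs
        exact (hid (π '' S)).2.1 ⟨s, hs, rfl⟩
    · refine (hid (π '' S)).2.2 _ ?_ ?_
      · rintro _ ⟨x, hx, rfl⟩ a
        obtain ⟨b, rfl⟩ := hsur a
        rw [← hmul, ← hmul]
        exact ⟨Submodule.mem_map_of_mem ((hid S).1 x hx b).1,
          Submodule.mem_map_of_mem ((hid S).1 x hx b).2⟩
      · rintro _ ⟨s, hs, rfl⟩
        exact Submodule.mem_map_of_mem ((hid S).2.1 hs)
  · intro I n h x hx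
    have h2 : π x ∈ (der I n).map π := Submodule.mem_map_of_mem hx
    rw [hder, h, Submodule.mem_bot] at h2
    exact h2

end ASF
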